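import Pool.Agent.W545.QI.Final

/-!
# A classical integrable system on `T*T²` without exact quantisation

Setting (b) of the question, `X = T² = (ℝ/2πℤ)²`, `n = 2`. The functions
`p₁ = cos x₂ q(x₁) ξ₁ + 2 sin x₂ ξ₂` and `p₂ = sin x₂ f(x₁) ξ₁²` with
`q = cos (sin + 3 cos) (sin - cos) (sin - 2 cos)`, `f = cos⁴ (sin + 3 cos) (sin - cos)³`
form a classical integrable system, but there are no semiclassical pseudo-differential operators
`P₁`, `P₂` on `T²` (of any orders) with principal symbols `p₁`, `p₂` that are symmetric on `C^∞(T²)`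
and commute on `C^∞(T²)`, not even weakly: `⟨P₁ u, P₂ v⟩ = ⟨P₂ u, P₁ v⟩` for `u, v ∈ C^∞(T²)`.
(If the self-adjoint closures of `P₁`, `P₂` commute strongly then this identity holds.)
All definitions are in `Pool/Agent/W545/QI/St.lean`.
-/

set_option autoImplicit false
open Pool.Agent.W545.QI.St

namespace Pool.Agent.Results.MP_c1d796_mp.NoQuantisationTorus

/-- `(p₁, p₂)` is a classical integrable system on `T*T²`, and no symmetric semiclassical
pseudo-differential operators `P₁`, `P₂` with principal symbols `p₁`, `p₂` commute. -/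
theorem result : IsClassicalIntegrable p₁ p₂ ∧
    ∀ (h₀ m₁ m₂ : ℝ) (P₁ P₂ : ℝ → (ℝ × ℝ → ℂ) → (ℝ × ℝ → ℂ)), 0 < h₀ →
      IsQuantisation h₀ m₁ P₁ p₁ → IsQuantisation h₀ m₂ P₂ p₂ →
      (∀ h : ℝ, 0 < h → h ≤ h₀ → IsSym (P₁ h)) → (∀ h : ℝ, 0 < h → h ≤ h₀ → IsSym (P₂ h)) →
      ¬ ∀ h : ℝ, 0 < h → h ≤ h₀ → WeaklyCommute (P₁ h) (P₂ h) :=
  ⟨Pool.Agent.W545.QI.classical, fun h₀ m₁ m₂ P₁ P₂ h0 H1 H2 s1 s2 hc =>
    Pool.Agent.W545.QI.main h₀ m₁ m₂ P₁ P₂ h0 H1 H2 s1 s2 hc⟩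

end Pool.Agent.Results.MP_c1d796_mp.NoQuantisationTorus
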